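import Pool.Agent.P8H97.FE.Stm

/-!
# Project FE, part DEN
-/

set_option autoImplicit false
set_option linter.all false

namespace Pool.Agent.P8H59.FE

open Finset Filter MeasureTheory Topology
open Pool.Agent.P8H97.FE

section

variable {l : ℕ}

open Classical in
noncomputable def NX (G : ℕ → Set (Fin l → ℝ)) (X : ℕ) (y : Fin l → ℝ) : ℕ :=
  ((Icc 1 X).filter (fun n => y ∈ G n)).card

theorem NX_eq (G : ℕ → Set (Fin l → ℝ)) (X : ℕ) (y : Fin l → ℝ) :
    (NX G X y : ENNReal) = ∑ n ∈ Icc 1 X, (G n).indicator 1 y := by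
  classical
  unfold NX
  rw [Finset.card_filter]
  push_cast
  refine Finset.sum_congr rfl fun n _ => ?_
  rw [Set.indicator_apply]
  simp only [Pi.one_apply]

theorem NX_meas {G : ℕ → Set (Fin l → ℝ)} (hG : ∀ n, MeasurableSet (G n)) (X : ℕ) :
    Measurable (NX G X) := by
  classical
  have h : NX G X = fun y => ∑ n ∈ Icc 1 X, (if y ∈ G n then 1 else 0) := by
    funext y
    unfold NX
    rw [Finset.card_filter]
  rw [h]
  exact Finset.measurable_sum _ fun n _ => Measurable.ite (hG n) measurable_const measurable_const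

def SS (G : ℕ → Set (Fin l → ℝ)) (k K : ℕ) : Set (Fin l → ℝ) :=
  {x | ∀ X, K ≤ X → (k + 1) * NX G X x ≤ X}

theorem SS_meas {G : ℕ → Set (Fin l → ℝ)} (hG : ∀ n, MeasurableSet (G n)) (k K : ℕ) :
    MeasurableSet (SS G k K) := by
  have h : SS G k K = ⋂ X : ℕ, ⋂ _ : K ≤ X, {x | (k + 1) * NX G X x ≤ X} := by
    ext x
    simp only [SS, Set.mem_iInter]
    rfl
  rw [h]
  refine MeasurableSet.iInter fun X => MeasurableSet.iInter fun _ => ?_
  exact measurableSet_le (measurable_const.mul (NX_meas hG X)) measurable_const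

theorem avg {G : ℕ → Set (Fin l → ℝ)} (hG : ∀ n, MeasurableSet (G n)) (X k : ℕ)
    (E : Set (Fin l → ℝ)) (h : ∀ y ∈ E, (k + 1) * NX G X y ≤ X) :
    ((k : ENNReal) + 1) * ∑ n ∈ Icc 1 X, volume (G n ∩ E) ≤ X * volume E := by
  have h1 : ∑ n ∈ Icc 1 X, volume (G n ∩ E) =
      ∫⁻ y in E, ∑ n ∈ Icc 1 X, (G n).indicator 1 y := by
    rw [lintegral_finsetSum _ (fun n _ => (measurable_one.indicator (hG n)))]
    refine Finset.sum_congr rfl fun n _ => ?_
    rw [lintegral_indicator_one (hG n), Measure.restrict_apply (hG n)]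
  rw [h1, ← lintegral_const_mul _ (Finset.measurable_sum _
    (fun n _ => (measurable_one.indicator (hG n))))]
  calc ∫⁻ y in E, ((k : ENNReal) + 1) * ∑ n ∈ Icc 1 X, (G n).indicator 1 y ≤
      ∫⁻ y in E, (X : ENNReal) := by
        refine setLIntegral_mono measurable_const (fun y hy => ?_)
        rw [← NX_eq]
        exact_mod_cast h y hy
    _ = X * volume E := by rw [setLIntegral_const]

end

theorem log_ineq {n X : ℕ} (hX : 4 ≤ X) (hn : X / 2 < n) : Real.log X ≤ 2 * Real.log n := by
  have h1 : X ≤ n ^ 2 := by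
    have h2 : X + 1 ≤ 2 * n := by omega
    nlinarith
  have h3 : Real.log X ≤ Real.log ((n : ℝ) ^ 2) := by
    apply Real.log_le_log
    · exact_mod_cast (show 0 < X by omega)
    · exact_mod_cast h1
  rwa [Real.log_pow, Nat.cast_ofNat] at h3

/-- **DEN** -/
theorem den : S_DEN := by
  classical
  intro l hl G hG Ω hΩ
  have hbes : ∀ᵐ x ∂(volume : Measure (Fin l → ℝ)), ∀ k K : ℕ, x ∈ SS G k K →
      Tendsto (fun r => volume (SS G k K ∩ Metric.closedBall x r) / volume (Metric.closedBall x r))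
        (𝓝[>] 0) (𝓝 1) := by
    rw [ae_all_iff]
    intro k
    rw [ae_all_iff]
    intro K
    exact ae_imp_of_ae_restrict (Besicovitch.ae_tendsto_measure_inter_div volume (SS G k K))
  filter_upwards [hbes] with x hx hxΩ
  obtain ⟨w, hw, δ, hδ, hev⟩ := hΩ x hxΩ
  by_contra hcon
  push Not at hcon
  -- the parameter
  obtain ⟨c, hc⟩ : ∃ c : ℝ, c = δ / 2 ^ l := ⟨_, rfl⟩
  have hc0 : 0 < c := by rw [hc]; positivity
  obtain ⟨k, hk⟩ := exists_nat_gt (8 / c)
  have hk0 : (0 : ℝ) < (k : ℝ) + 1 := by positivity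
  have hk1 : 1 / ((k : ℝ) + 1) < c / 8 := by
    rw [div_lt_div_iff₀ hk0 (by norm_num)]
    rw [div_lt_iff₀ hc0] at hk
    nlinarith
  have h1 := hcon (1 / ((k : ℝ) + 1)) (by positivity)
  obtain ⟨K, hK⟩ := eventually_atTop.1 h1
  have hxS : x ∈ SS G k K := by
    intro X hX
    have h2 := hK X hX
    have h3 : (NX G X x : ℝ) < 1 / ((k : ℝ) + 1) * X := h2
    have h4 : ((k : ℝ) + 1) * NX G X x ≤ X := by
      rw [one_div, ← div_eq_inv_mul, lt_div_iff₀ hk0] at h3
      linarith
    exact_mod_cast h4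
  have hlim := hx k K hxS
  -- in real numbers
  have hlim2 := (ENNReal.tendsto_toReal ENNReal.one_ne_top).comp hlim
  have hr : Tendsto (fun X : ℕ => 2 * w / Real.log X) atTop (𝓝[>] 0) := by
    rw [tendsto_nhdsWithin_iff]
    constructor
    · exact (Tendsto.div_atTop tendsto_const_nhds
        (Real.tendsto_log_atTop.comp tendsto_natCast_atTop_atTop))
    · filter_upwards [eventually_ge_atTop 2] with X hX
      have : 0 < Real.log X := Real.log_pos (by exact_mod_cast hX)
      exact div_pos (by positivity) this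
  have hlim3 := hlim2.comp hr
  have hev2 := hlim3.eventually (lt_mem_nhds (show (1 - c / 8 : ℝ) < (1 : ENNReal).toReal by
    rw [ENNReal.toReal_one]; linarith))
  obtain ⟨n0, hn0⟩ := eventually_atTop.1 hev
  obtain ⟨X, hX1, hX2, hX3, hX4⟩ := ((hev2.and ((eventually_ge_atTop 4).and
    ((eventually_ge_atTop (2 * n0 + 2)).and (eventually_ge_atTop K)))).exists)
  have hX0 : (0 : ℝ) < X := by exact_mod_cast (show 0 < X by omega)
  have hlogX : 0 < Real.log X := Real.log_pos (by exact_mod_cast (show 1 < X by omega))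
  obtain ⟨r, hrdef⟩ : ∃ r : ℝ, r = 2 * w / Real.log X := ⟨_, rfl⟩
  have hr0 : 0 < r := by rw [hrdef]; positivity
  simp only [Function.comp_apply] at hX1
  rw [← hrdef, ENNReal.toReal_div] at hX1
  have hBvol : (volume (Metric.closedBall x r)).toReal = (2 * r) ^ l := by
    rw [Real.volume_pi_closedBall _ hr0.le, Fintype.card_fin,
      ENNReal.toReal_ofReal (by positivity)]
  have hBfin : volume (Metric.closedBall x r) ≠ ⊤ := by
    rw [Real.volume_pi_closedBall _ hr0.le]
    exact ENNReal.ofReal_ne_top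
  obtain ⟨V, hV⟩ : ∃ V : ℝ, V = (2 * r) ^ l := ⟨_, rfl⟩
  have hV0 : 0 < V := by rw [hV]; positivity
  rw [hBvol, ← hV, lt_div_iff₀ hV0] at hX1
  obtain ⟨B, hB⟩ : ∃ B : Set (Fin l → ℝ), B = Metric.closedBall x r := ⟨_, rfl⟩
  rw [← hB] at hX1 hBvol hBfin
  have hBr : volume.real B = V := by rw [hV]; exact hBvol
  have hSB : (1 - c / 8) * V < volume.real (SS G k K ∩ B) := hX1
  -- the complement
  have hdiff : volume.real (B \ SS G k K) ≤ c / 8 * V := by
    have h5 := measureReal_inter_add_sdiff (μ := volume) (s := B) (SS_meas hG k K) hBfin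
    rw [Set.inter_comm, hBr] at h5
    linarith
  -- lower bounds
  have hlow : ∀ n ∈ Ioc (X / 2) X, c * V ≤ volume.real (G n ∩ B) := by
    intro n hn
    rw [Finset.mem_Ioc] at hn
    have h6 := hn0 n (by omega)
    have h7 := log_ineq hX2 hn.1
    have hn1 : 0 < Real.log n := by linarith
    have h8 : Real.log n ≤ Real.log X := Real.log_le_log
      (by exact_mod_cast (show 0 < n by omega)) (by exact_mod_cast hn.2)
    have h9 : w / Real.log n ≤ r := by
      rw [hrdef, div_le_div_iff₀ hn1 hlogX]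
      nlinarith
    have h10 : volume.real (G n ∩ Metric.closedBall x (w / Real.log n)) ≤
        volume.real (G n ∩ B) := by
      apply measureReal_mono
      · rw [hB]
        exact Set.inter_subset_inter_right _ (Metric.closedBall_subset_closedBall h9)
      · exact ne_top_of_le_ne_top hBfin (measure_mono Set.inter_subset_right)
    have h11 : c * V ≤ δ * (2 * (w / Real.log n)) ^ l := by
      rw [hc, hV, hrdef]
      have e1 : δ / 2 ^ l * (2 * (2 * w / Real.log X)) ^ l = δ * (2 * (w / Real.log X)) ^ l := by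
        rw [show (2 * (2 * w / Real.log X)) = 2 * (2 * (w / Real.log X)) by ring,
          mul_pow 2 (2 * (w / Real.log X))]
        field_simp
      rw [e1]
      gcongr
    linarith
  -- upper bound
  have havg := avg hG X k (B ∩ SS G k K) (fun y hy => hy.2 X hX4)
  have hEfin : volume (B ∩ SS G k K) ≠ ⊤ :=
    ne_top_of_le_ne_top hBfin (measure_mono Set.inter_subset_left)
  have havg2 : ((k : ℝ) + 1) * ∑ n ∈ Icc 1 X, volume.real (G n ∩ (B ∩ SS G k K)) ≤ X * V := by
    have h12 := ENNReal.toReal_mono (ENNReal.mul_ne_top (ENNReal.natCast_ne_top X) hEfin) havg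
    rw [ENNReal.toReal_mul, ENNReal.toReal_mul, ENNReal.toReal_sum (fun n _ =>
      ne_top_of_le_ne_top hEfin (measure_mono Set.inter_subset_right)), ENNReal.toReal_natCast] at h12
    have h13 : ((k : ENNReal) + 1).toReal = (k : ℝ) + 1 := by
      rw [ENNReal.toReal_add (ENNReal.natCast_ne_top k) ENNReal.one_ne_top,
        ENNReal.toReal_natCast, ENNReal.toReal_one]
    rw [h13] at h12
    refine h12.trans (mul_le_mul_of_nonneg_left ?_ hX0.le)
    rw [← hBr]
    exact measureReal_mono Set.inter_subset_left hBfin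
  have hup : ∑ n ∈ Icc 1 X, volume.real (G n ∩ B) ≤ c / 8 * X * V + X * (c / 8 * V) := by
    have h14 : ∀ n ∈ Icc 1 X, volume.real (G n ∩ B) ≤
        volume.real (G n ∩ (B ∩ SS G k K)) + volume.real (B \ SS G k K) := by
      intro n _
      have h15 : G n ∩ B ⊆ (G n ∩ (B ∩ SS G k K)) ∪ (B \ SS G k K) := by
        intro y hy
        by_cases hyS : y ∈ SS G k K
        · exact Or.inl ⟨hy.1, hy.2, hyS⟩
        · exact Or.inr ⟨hy.2, hyS⟩
      refine (measureReal_mono h15 ?_).trans (measureReal_union_le _ _)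
      exact ne_top_of_le_ne_top hBfin (measure_mono (Set.union_subset
        (fun y hy => hy.2.1) Set.sdiff_subset))
    refine (Finset.sum_le_sum h14).trans ?_
    rw [Finset.sum_add_distrib, Finset.sum_const, Nat.card_Icc, nsmul_eq_mul]
    refine add_le_add ?_ ?_
    · have h16 : ∑ n ∈ Icc 1 X, volume.real (G n ∩ (B ∩ SS G k K)) ≤ 1 / ((k : ℝ) + 1) * (X * V) := by
        rw [one_div, ← div_eq_inv_mul, le_div_iff₀ hk0]
        linarith
      refine h16.trans ?_
      have h17 : 1 / ((k : ℝ) + 1) * (X * V) ≤ c / 8 * (X * V) :=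
        mul_le_mul_of_nonneg_right hk1.le (by positivity)
      linarith
    · rw [Nat.add_sub_cancel]
      exact mul_le_mul_of_nonneg_left hdiff hX0.le
  -- the contradiction
  have hlow2 : (X / 2 : ℝ) * (c * V) ≤ ∑ n ∈ Icc 1 X, volume.real (G n ∩ B) := by
    calc (X / 2 : ℝ) * (c * V) ≤ ((Ioc (X / 2) X).card : ℝ) * (c * V) := by
          refine mul_le_mul_of_nonneg_right ?_ (by positivity)
          rw [Nat.card_Ioc]
          have h18 : X ≤ 2 * (X - X / 2) := by omega
          have h19 : (X : ℝ) ≤ 2 * ((X - X / 2 : ℕ) : ℝ) := by exact_mod_cast h18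
          linarith
      _ = ∑ _n ∈ Ioc (X / 2) X, c * V := by rw [Finset.sum_const, nsmul_eq_mul]
      _ ≤ ∑ n ∈ Ioc (X / 2) X, volume.real (G n ∩ B) := Finset.sum_le_sum hlow
      _ ≤ ∑ n ∈ Icc 1 X, volume.real (G n ∩ B) := by
          refine Finset.sum_le_sum_of_subset_of_nonneg ?_ (fun _ _ _ => measureReal_nonneg)
          intro n hn
          rw [Finset.mem_Ioc] at hn
          rw [Finset.mem_Icc]
          omega
  have hfin : 0 < (X : ℝ) * (c * V) := by positivity
  nlinarith

end Pool.Agent.P8H59.FE
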