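import Pool.Agent.P8H97.FE.Stm

/-!
# Project FE, parts POS and SEC
-/

set_option autoImplicit false
set_option linter.all false

namespace Pool.Agent.P8H59.FE

open Finset Filter MeasureTheory Topology
open Pool.Agent.P8H97.FE

theorem card_box {l : ℕ} (H : Fin l → ℕ) : ((box H).card : ℝ) = ∏ i, (H i : ℝ) := by
  rw [Fintype.card_piFinset]
  push_cast
  refine Finset.prod_congr rfl fun i _ => ?_
  rw [Nat.card_Icc]
  simp

theorem ev_log (r : ℕ) (A η : ℝ) (hA : 0 ≤ A) (hη : 0 < η) :
    ∀ᶠ N : ℕ in atTop, A * Real.log N ^ r ≤ (N : ℝ) ^ η := by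
  have h1 := isLittleO_log_rpow_rpow_atTop (r : ℝ) hη
  have h2 := h1.def (show 0 < 1 / (A + 1) by positivity)
  have h3 := tendsto_natCast_atTop_atTop.eventually h2
  filter_upwards [h3, eventually_ge_atTop 1] with N hN hN1
  have hN0 : (1 : ℝ) ≤ N := by exact_mod_cast hN1
  rw [Real.rpow_natCast, Real.norm_of_nonneg (pow_nonneg (Real.log_nonneg hN0) _),
    Real.norm_of_nonneg (Real.rpow_nonneg (by linarith) _)] at hN
  have h4 : 0 ≤ Real.log (N : ℝ) ^ r := pow_nonneg (Real.log_nonneg hN0) _
  calc A * Real.log N ^ r ≤ (A + 1) * Real.log N ^ r := by nlinarith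
    _ ≤ (A + 1) * (1 / (A + 1) * (N : ℝ) ^ η) := by gcongr
    _ = (N : ℝ) ^ η := by field_simp

theorem R_pos (l : ℕ) {N : ℕ} (hN : 2 ≤ N) : 0 < R l N := by
  unfold R
  have h1 : (1 : ℝ) < N := by exact_mod_cast hN
  have h2 := Real.log_pos h1
  positivity

/-- **POS** -/
theorem pos (hL : S_LOW) (hS : S_SEC) : S_POS := by
  intro l η hη
  obtain ⟨κ₁, hκ₁, hlow⟩ := hL l
  obtain ⟨C, hC, hsec⟩ := hS l η hη
  have hC0 : 0 < C := by linarith
  refine ⟨min (κ₁ / 2) (κ₁ ^ 2 / (4 * C)), lt_min (by positivity) (by positivity), ?_⟩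
  set κ := min (κ₁ / 2) (κ₁ ^ 2 / (4 * C)) with hκ
  have hk1 : κ ≤ κ₁ / 2 := min_le_left _ _
  have hk2 : κ ≤ κ₁ ^ 2 / (4 * C) := min_le_right _ _
  filter_upwards [hlow, hsec, ev_log 2 1 η (by norm_num) hη, eventually_ge_atTop 2]
    with N h1 h2 h3 hN H hH
  have hR := R_pos l hN
  have hN0 : (0 : ℝ) < N := by exact_mod_cast (show 0 < N by omega)
  have hHpos : ∀ i, (0 : ℝ) < H i := fun i =>
    lt_of_lt_of_le (Real.rpow_pos_of_pos hN0 η) (hH i).1
  have hD : 0 < ∏ i, (H i : ℝ) := Finset.prod_pos fun i _ => hHpos i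
  have e1 := h1 H (fun i => ⟨by linarith [(hH i).1], (hH i).2⟩)
  have e2 := h2 H hH
  set D := ∏ i, (H i : ℝ) with hDdef
  set A := (box H).filter (fun h => κ * R l N ≤ cnt N h) with hA
  have e3 : ∑ h ∈ box H, (cnt N h : ℝ) ≤ ∑ h ∈ A, (cnt N h : ℝ) + κ₁ / 2 * R l N * D := by
    rw [← Finset.sum_filter_add_sum_filter_not (box H) (fun h => κ * R l N ≤ cnt N h)]
    refine add_le_add le_rfl ?_
    calc ∑ h ∈ (box H).filter (fun h => ¬ κ * R l N ≤ cnt N h), (cnt N h : ℝ) ≤
        ∑ _h ∈ (box H).filter (fun h => ¬ κ * R l N ≤ cnt N h), κ * R l N := by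
          refine Finset.sum_le_sum fun h hh => ?_
          rw [Finset.mem_filter] at hh
          linarith [hh.2]
      _ = (((box H).filter (fun h => ¬ κ * R l N ≤ cnt N h)).card : ℝ) * (κ * R l N) := by
          rw [Finset.sum_const, nsmul_eq_mul]
      _ ≤ D * (κ₁ / 2 * R l N) := by
          have h5 : (((box H).filter (fun h => ¬ κ * R l N ≤ cnt N h)).card : ℝ) ≤ D := by
            rw [hDdef, ← card_box]
            exact_mod_cast Finset.card_le_card (Finset.filter_subset _ _)
          have h6 : κ * R l N ≤ κ₁ / 2 * R l N := mul_le_mul_of_nonneg_right hk1 hR.le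
          have h7 : 0 ≤ κ * R l N := by
            have : 0 < κ := lt_min (by positivity) (by positivity)
            positivity
          exact mul_le_mul h5 h6 h7 hD.le
      _ = _ := by ring
  have e4 : κ₁ / 2 * R l N * D ≤ ∑ h ∈ A, (cnt N h : ℝ) := by linarith
  have e5 := sq_sum_le_card_mul_sum_sq (s := A) (f := fun h => (cnt N h : ℝ))
  have e6 : ∑ h ∈ A, (cnt N h : ℝ) ^ 2 ≤ C * R l N ^ 2 * D := by
    refine le_trans ?_ e2
    exact Finset.sum_le_sum_of_subset_of_nonneg (Finset.filter_subset _ _)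
      (fun _ _ _ => by positivity)
  have e7 : (κ₁ / 2 * R l N * D) ^ 2 ≤ (A.card : ℝ) * (C * R l N ^ 2 * D) := by
    refine le_trans (pow_le_pow_left₀ (by positivity) e4 2) (e5.trans ?_)
    exact mul_le_mul_of_nonneg_left e6 (Nat.cast_nonneg _)
  have e8 : κ₁ ^ 2 / (4 * C) * D ≤ (A.card : ℝ) := by
    have hX : 0 < C * R l N ^ 2 * D := by positivity
    refine le_of_mul_le_mul_right ?_ hX
    calc κ₁ ^ 2 / (4 * C) * D * (C * R l N ^ 2 * D) = (κ₁ / 2 * R l N * D) ^ 2 := by
          field_simp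
          ring
      _ ≤ _ := e7
  exact le_trans (mul_le_mul_of_nonneg_right hk2 hD.le) e8

theorem cnt_le {l : ℕ} (N : ℕ) (h : Fin l → ℕ) : cnt N h ≤ N := by
  unfold cnt
  refine (Finset.card_filter_le _ _).trans ?_
  rw [Nat.card_Icc]
  omega

theorem card_pair {l : ℕ} (H : Fin l → ℕ) {i j : Fin l} (hij : i ≠ j) :
    ((box H).filter (fun h => h i = h j)).card * H i ≤ ∏ i, H i := by
  classical
  have h1 : (((box H).filter (fun h => h i = h j)) ×ˢ Icc 1 (H i)).card ≤ (box H).card := by
    refine Finset.card_le_card_of_injOn (fun p => Function.update p.1 i p.2) ?_ ?_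
    · intro p hp
      rw [Finset.mem_coe, Finset.mem_product, Finset.mem_filter, Fintype.mem_piFinset] at hp
      rw [Finset.mem_coe, Fintype.mem_piFinset]
      intro a
      change Function.update p.1 i p.2 a ∈ Icc 1 (H a)
      by_cases ha : a = i
      · subst ha
        rw [Function.update_self]
        exact hp.2
      · rw [Function.update_of_ne ha]
        exact hp.1.1 a
    · intro p hp p' hp' hpp
      rw [Finset.mem_coe, Finset.mem_product, Finset.mem_filter] at hp hp'
      simp only at hpp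
      have e1 := congrFun hpp i
      rw [Function.update_self, Function.update_self] at e1
      have e2 := congrFun hpp j
      rw [Function.update_of_ne hij.symm, Function.update_of_ne hij.symm] at e2
      refine Prod.ext ?_ e1
      funext a
      by_cases ha : a = i
      · subst ha
        rw [hp.1.2, hp'.1.2, e2]
      · have := congrFun hpp a
        rwa [Function.update_of_ne ha, Function.update_of_ne ha] at this
  rw [Finset.card_product, Nat.card_Icc, Fintype.card_piFinset] at h1
  simpa using h1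

/-- **SEC** -/
theorem sec (hV : S_SVB) (hM : S_MOM) : S_SEC := by
  classical
  intro l η hη
  obtain ⟨C₁, hC₁, hsv⟩ := hV l
  obtain ⟨C₂, hC₂, hmo⟩ := hM l (2 * C₁) η (by linarith) hη
  refine ⟨C₁ ^ 2 * C₂ + 1, by nlinarith [mul_nonneg (sq_nonneg C₁) (by linarith : (0 : ℝ) ≤ C₂)], ?_⟩
  filter_upwards [hsv, hmo, ev_log (2 * (l + 1)) ((l : ℝ) ^ 2) η (by positivity) hη,
    eventually_ge_atTop 2] with N h1 h2 h3 hN H hH
  have hR := R_pos l hN
  have hN0 : (0 : ℝ) < N := by exact_mod_cast (show 0 < N by omega)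
  have hlog : 0 < Real.log N := Real.log_pos (by exact_mod_cast hN)
  have hNη : 0 < (N : ℝ) ^ η := Real.rpow_pos_of_pos hN0 η
  have hHpos : ∀ i, (0 : ℝ) < H i := fun i => lt_of_lt_of_le hNη (hH i).1
  have hD : 0 < ∏ i, (H i : ℝ) := Finset.prod_pos fun i _ => hHpos i
  set D := ∏ i, (H i : ℝ) with hDdef
  have e2 := h2 H hH
  -- the injective vectors
  have s1 : ∑ h ∈ (box H).filter (fun h => Function.Injective h), (cnt N h : ℝ) ^ 2 ≤
      C₁ ^ 2 * C₂ * R l N ^ 2 * D := by
    calc ∑ h ∈ (box H).filter (fun h => Function.Injective h), (cnt N h : ℝ) ^ 2 ≤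
        ∑ h ∈ (box H).filter (fun h => Function.Injective h),
          C₁ ^ 2 * R l N ^ 2 * Real.exp (2 * C₁ * S h) := by
          refine Finset.sum_le_sum fun h hh => ?_
          rw [Finset.mem_filter, Fintype.mem_piFinset] at hh
          have h5 := h1 h hh.2 (fun i => (Finset.mem_Icc.mp (hh.1 i)).1)
          have h6 := pow_le_pow_left₀ (Nat.cast_nonneg _) h5 2
          refine h6.trans (le_of_eq ?_)
          rw [mul_pow, mul_pow, ← Real.exp_nat_mul]
          push_cast
          ring_nf
      _ ≤ ∑ h ∈ box H, C₁ ^ 2 * R l N ^ 2 * Real.exp (2 * C₁ * S h) :=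
          Finset.sum_le_sum_of_subset_of_nonneg (Finset.filter_subset _ _)
            (fun _ _ _ => by positivity)
      _ = C₁ ^ 2 * R l N ^ 2 * ∑ h ∈ box H, Real.exp (2 * C₁ * S h) := by rw [Finset.mul_sum]
      _ ≤ C₁ ^ 2 * R l N ^ 2 * (C₂ * D) := mul_le_mul_of_nonneg_left e2 (by positivity)
      _ = _ := by ring
  -- the others
  have s2 : (((box H).filter (fun h => ¬ Function.Injective h)).card : ℝ) * (N : ℝ) ^ η ≤
      (l : ℝ) ^ 2 * D := by
    have h5 : (box H).filter (fun h => ¬ Function.Injective h) ⊆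
        ((univ : Finset (Fin l × Fin l)).filter (fun p => p.1 ≠ p.2)).biUnion
          (fun p => (box H).filter (fun h => h p.1 = h p.2)) := by
      intro h hh
      rw [Finset.mem_filter] at hh
      obtain ⟨hb, hni⟩ := hh
      unfold Function.Injective at hni
      push Not at hni
      obtain ⟨a, b, hab, hne⟩ := hni
      rw [Finset.mem_biUnion]
      exact ⟨(a, b), by simp [hne], by rw [Finset.mem_filter]; exact ⟨hb, hab⟩⟩
    have h6 : (((box H).filter (fun h => ¬ Function.Injective h)).card : ℝ) ≤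
        ∑ p ∈ (univ : Finset (Fin l × Fin l)).filter (fun p => p.1 ≠ p.2),
          (((box H).filter (fun h => h p.1 = h p.2)).card : ℝ) := by
      exact_mod_cast (Finset.card_le_card h5).trans Finset.card_biUnion_le
    calc (((box H).filter (fun h => ¬ Function.Injective h)).card : ℝ) * (N : ℝ) ^ η ≤
        (∑ p ∈ (univ : Finset (Fin l × Fin l)).filter (fun p => p.1 ≠ p.2),
          (((box H).filter (fun h => h p.1 = h p.2)).card : ℝ)) * (N : ℝ) ^ η :=
          mul_le_mul_of_nonneg_right h6 hNη.le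
      _ = ∑ p ∈ (univ : Finset (Fin l × Fin l)).filter (fun p => p.1 ≠ p.2),
          (((box H).filter (fun h => h p.1 = h p.2)).card : ℝ) * (N : ℝ) ^ η := by
          rw [Finset.sum_mul]
      _ ≤ ∑ _p ∈ (univ : Finset (Fin l × Fin l)).filter (fun p => p.1 ≠ p.2), D := by
          refine Finset.sum_le_sum fun p hp => ?_
          rw [Finset.mem_filter] at hp
          have h7 := card_pair H hp.2
          have h8 : (((box H).filter (fun h => h p.1 = h p.2)).card : ℝ) * (H p.1 : ℝ) ≤ D := by
            rw [hDdef]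
            exact_mod_cast h7
          exact le_trans (mul_le_mul_of_nonneg_left (hH p.1).1 (Nat.cast_nonneg _)) h8
      _ = (((univ : Finset (Fin l × Fin l)).filter (fun p => p.1 ≠ p.2)).card : ℝ) * D := by
          rw [Finset.sum_const, nsmul_eq_mul]
      _ ≤ (l : ℝ) ^ 2 * D := by
          refine mul_le_mul_of_nonneg_right ?_ hD.le
          have h9 := Finset.card_filter_le (univ : Finset (Fin l × Fin l)) (fun p => p.1 ≠ p.2)
          rw [Finset.card_univ, Fintype.card_prod, Fintype.card_fin] at h9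
          rw [sq]
          exact_mod_cast h9
  have s3 : ∑ h ∈ (box H).filter (fun h => ¬ Function.Injective h), (cnt N h : ℝ) ^ 2 ≤
      R l N ^ 2 * D := by
    calc ∑ h ∈ (box H).filter (fun h => ¬ Function.Injective h), (cnt N h : ℝ) ^ 2 ≤
        ∑ _h ∈ (box H).filter (fun h => ¬ Function.Injective h), (N : ℝ) ^ 2 := by
          refine Finset.sum_le_sum fun h _ => ?_
          exact pow_le_pow_left₀ (Nat.cast_nonneg _) (by exact_mod_cast cnt_le N h) 2
      _ = (((box H).filter (fun h => ¬ Function.Injective h)).card : ℝ) * (N : ℝ) ^ 2 := by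
          rw [Finset.sum_const, nsmul_eq_mul]
      _ ≤ R l N ^ 2 * D := by
          refine le_of_mul_le_mul_right ?_ hNη
          calc (((box H).filter (fun h => ¬ Function.Injective h)).card : ℝ) * (N : ℝ) ^ 2 *
                (N : ℝ) ^ η =
              ((((box H).filter (fun h => ¬ Function.Injective h)).card : ℝ) * (N : ℝ) ^ η) *
                (N : ℝ) ^ 2 := by ring
            _ ≤ ((l : ℝ) ^ 2 * D) * (N : ℝ) ^ 2 := mul_le_mul_of_nonneg_right s2 (by positivity)
            _ = R l N ^ 2 * D * ((l : ℝ) ^ 2 * Real.log N ^ (2 * (l + 1))) := by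
                unfold R
                rw [mul_comm 2 (l + 1), pow_mul]
                field_simp
            _ ≤ R l N ^ 2 * D * (N : ℝ) ^ η := mul_le_mul_of_nonneg_left h3 (by positivity)
  rw [← Finset.sum_filter_add_sum_filter_not (box H) (fun h => Function.Injective h)]
  calc _ ≤ C₁ ^ 2 * C₂ * R l N ^ 2 * D + R l N ^ 2 * D := add_le_add s1 s3
    _ = _ := by ring

end Pool.Agent.P8H59.FE
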